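import Mathlib
import Pool.Agent.X52.Cov1

/-!
# MP_6a60a4_co, Q1: a counterexample with 67 elements and rank 11

The ground set is the field with 67 elements. For every point `p` the complement of `p` is the
disjoint union of two sets of size 33, the translates by `p` of the set of non-zero squares and
of the set of non-squares. These 134 sets are made to be of rank `10`, the intersections of two of
them of rank `9`, the intersections of three of them of rank `8`, and the matroid of rank `11` is
otherwise free. That this is a matroid needs only that the intersection of `i` of the sets has at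
most `11 - i` elements for `i = 4, 5, 6`, which is checked by a computer search that uses the
affine symmetries. A flat of rank at most `10` has at most 33 elements, so two such flats do not
cover the ground set; but they cover the complement of any point.
-/

set_option autoImplicit false
set_option linter.unusedSectionVars false

namespace Pool.Agent.Results.MP_6a60a4_co.RankEleven

open X52.Cov
open scoped Matroid

section gen
variable {α β : Type} [Fintype α] [DecidableEq α] [DecidableEq β] (H : β → Finset α)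

/-- intersection of the sets indexed by `I` -/
def cap (I : Finset β) : Finset α := Finset.univ.filter (fun x => ∀ i ∈ I, x ∈ H i)

theorem mem_cap {I : Finset β} {x : α} : x ∈ cap H I ↔ ∀ i ∈ I, x ∈ H i := by simp [cap]

/-- independence -/
def Ind (X : Finset α) : Prop := ∀ I : Finset β, I.card ≤ 3 → (X ∩ cap H I).card + I.card ≤ 11

/-- no large bicliques -/
def Hyp : Prop := ∀ I : Finset β, 4 ≤ I.card → I.card ≤ 6 → (cap H I).card + I.card ≤ 11

/-- tight -/
def Tight (X : Finset α) (I : Finset β) : Prop := I.card ≤ 3 ∧ 11 ≤ (X ∩ cap H I).card + I.card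

theorem cap_inter (I J : Finset β) : cap H I ∩ cap H J = cap H (I ∪ J) := by
  ext x
  simp only [Finset.mem_inter, mem_cap, Finset.mem_union]
  constructor
  · rintro ⟨h1, h2⟩ i (h | h)
    · exact h1 i h
    · exact h2 i h
  · intro h
    exact ⟨fun i hi => h i (Or.inl hi), fun i hi => h i (Or.inr hi)⟩

theorem cap_mono {I J : Finset β} (h : I ⊆ J) : cap H J ⊆ cap H I := by
  intro x hx
  rw [mem_cap] at hx ⊢
  exact fun i hi => hx i (h hi)

variable {H}

theorem join (hyp : Hyp H) {X : Finset α} (hX : Ind H X) {I J : Finset β} (hI : Tight H X I)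
    (hJ : Tight H X J) : Tight H X (I ∩ J) := by
  obtain ⟨hI1, hI2⟩ := hI
  obtain ⟨hJ1, hJ2⟩ := hJ
  have h1 := Finset.card_union_add_card_inter I J
  have h2 : (X ∩ cap H (I ∪ J)).card + (I ∪ J).card ≤ 11 := by
    by_cases h : (I ∪ J).card ≤ 3
    · exact hX _ h
    · have h3 := hyp (I ∪ J) (by omega) (by omega)
      have h4 := Finset.card_le_card (Finset.inter_subset_right : X ∩ cap H (I ∪ J) ⊆ _)
      omega
  have h5 := Finset.card_union_add_card_inter (X ∩ cap H I) (X ∩ cap H J)
  have h6 : (X ∩ cap H I) ∩ (X ∩ cap H J) = X ∩ cap H (I ∪ J) := by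
    rw [← cap_inter]; ext x; simp only [Finset.mem_inter]; tauto
  have h7 : (X ∩ cap H I) ∪ (X ∩ cap H J) ⊆ X ∩ cap H (I ∩ J) := by
    intro x hx
    rcases Finset.mem_union.1 hx with h | h
    · exact Finset.mem_inter.2 ⟨(Finset.mem_inter.1 h).1,
        cap_mono H Finset.inter_subset_left (Finset.mem_inter.1 h).2⟩
    · exact Finset.mem_inter.2 ⟨(Finset.mem_inter.1 h).1,
        cap_mono H Finset.inter_subset_right (Finset.mem_inter.1 h).2⟩
  have h8 := Finset.card_le_card h7
  rw [h6] at h5
  have h9 := Finset.card_le_card (Finset.inter_subset_left : I ∩ J ⊆ I)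
  exact ⟨by omega, by omega⟩

theorem tight_of_dep {X : Finset α} (hX : Ind H X) {e : α}
    (h : ¬ Ind H (insert e X)) : ∃ I, Tight H X I ∧ e ∈ cap H I := by
  unfold Ind at h
  push Not at h
  obtain ⟨I, hI, hI2⟩ := h
  have hX2 := hX I hI
  by_cases hec : e ∈ cap H I
  · refine ⟨I, ⟨hI, ?_⟩, hec⟩
    rw [Finset.insert_inter_of_mem hec] at hI2
    have := Finset.card_insert_le e (X ∩ cap H I)
    omega
  · rw [Finset.insert_inter_of_notMem hec] at hI2
    omega

theorem span {X T : Finset α} (hyp : Hyp H) (hX : Ind H X)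
    (hT : ∀ e ∈ T, ¬ Ind H (insert e X)) : T = ∅ ∨ ∃ K, Tight H X K ∧ T ⊆ cap H K := by
  induction T using Finset.induction_on with
  | empty => exact Or.inl rfl
  | insert a s ha ih =>
    right
    obtain ⟨I, hI, haI⟩ := tight_of_dep hX (hT a (Finset.mem_insert_self a s))
    rcases ih (fun e he => hT e (Finset.mem_insert_of_mem he)) with h | ⟨K, hK, hsK⟩
    · subst h
      exact ⟨I, hI, by simpa using haI⟩
    · refine ⟨I ∩ K, join hyp hX hI hK, ?_⟩
      intro x hx
      rcases Finset.mem_insert.1 hx with rfl | h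
      · exact cap_mono H Finset.inter_subset_left haI
      · exact cap_mono H Finset.inter_subset_right (hsK h)

theorem aug (hyp : Hyp H) {X Y : Finset α} (hX : Ind H X) (hY : Ind H Y)
    (hlt : X.card < Y.card) : ∃ e ∈ Y, e ∉ X ∧ Ind H (insert e X) := by
  by_contra hcon
  push Not at hcon
  rcases span (T := Y \ X) hyp hX (fun e he => hcon e (Finset.mem_sdiff.1 he).1
    (Finset.mem_sdiff.1 he).2) with h | ⟨K, ⟨hK1, hK2⟩, hsub⟩
  · have := Finset.card_le_card (Finset.sdiff_eq_empty_iff_subset.1 h)
    omega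
  · have h1 := hY K hK1
    have h2 : Y \ cap H K ⊆ X \ cap H K := by
      intro x hx
      rw [Finset.mem_sdiff] at hx ⊢
      refine ⟨?_, hx.2⟩
      by_contra hxX
      exact hx.2 (hsub (Finset.mem_sdiff.2 ⟨hx.1, hxX⟩))
    have h3 := Finset.card_le_card h2
    have h4 := Finset.card_inter_add_card_sdiff Y (cap H K)
    have h5 := Finset.card_inter_add_card_sdiff X (cap H K)
    omega

theorem ind_mono {X Y : Finset α} (hY : Ind H Y) (h : X ⊆ Y) : Ind H X := by
  intro I hI
  have := hY I hI
  have := Finset.card_le_card (Finset.inter_subset_inter_right h : X ∩ cap H I ⊆ Y ∩ cap H I)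
  omega

theorem ind_small {X : Finset α} (h : X.card ≤ 8) : Ind H X := by
  intro I hI
  have := Finset.card_le_card (Finset.inter_subset_left : X ∩ cap H I ⊆ X)
  omega

variable (H)

/-- the matroid -/
noncomputable def Mat (hyp : Hyp H) : Matroid α :=
  (IndepMatroid.ofFinset (E := Set.univ) (Ind H) (ind_small (by simp))
    (fun _ _ hJ h => ind_mono hJ h) (fun _ _ hI hJ h => aug hyp hI hJ h)
    (fun _ _ => Set.subset_univ _)).matroid

theorem Mat_indep (hyp : Hyp H) (X : Finset α) : (Mat H hyp).Indep (X : Set α) ↔ Ind H X := by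
  simp [Mat]

theorem Mat_E (hyp : Hyp H) : (Mat H hyp).E = Set.univ := rfl

end gen

/-! ### soundness of the search -/

theorem node_sound : ∀ (l cur : List ℕ) (d : ℕ), node l cur d = true → ∀ s : List ℕ,
    s.Sublist l → 1 ≤ s.length → 4 ≤ d + s.length → d + s.length ≤ 6 →
    (cur.filter (fun z => s.all (fun m => inc m z))).length + (d + s.length) ≤ 11 := by
  intro l
  induction l with
  | nil =>
    intro cur d _ s hs h1
    rw [List.sublist_nil.1 hs] at h1
    simp at h1
  | cons m l ih =>
    intro cur d hn s hs h1 h4 h6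
    obtain ⟨hA, hB⟩ := node_cons m l cur d hn
    cases hs with
    | cons _ h => exact ih cur d hB s h h1 h4 h6
    | cons_cons _ h =>
      rename_i s'
      have hfil : cur.filter (fun z => (m :: s').all (fun m => inc m z)) =
          (cur.filter (inc m)).filter (fun z => s'.all (fun m => inc m z)) := by
        rw [List.filter_filter]
        congr 1
        funext z
        rw [List.all_cons, Bool.and_comm]
      rw [hfil]
      have hle : ((cur.filter (inc m)).filter (fun z => s'.all (fun m => inc m z))).length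
          ≤ (cur.filter (inc m)).length := List.length_filter_le _ _
      rw [List.length_cons] at h4 h6 ⊢
      rcases hA with hA | ⟨⟨hA1, hA2⟩, hA3⟩
      · omega
      · rcases Nat.eq_zero_or_pos s'.length with h0 | h0
        · rcases hA2 with hA2 | hA2
          · omega
          · omega
        · have := ih (cur.filter (inc m)) (d + 1) hA3 s' h h0 (by omega) (by omega)
          omega

/-! ### the sets -/

/-- 67 is prime -/
instance fact67 : Fact (Nat.Prime 67) := ⟨by norm_num⟩

/-- being a non-zero square -/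
def sq (x : ZMod 67) : Bool := inc Q x.val

/-- the translates of the two quadratic classes -/
def Hs (h : ZMod 67 × Bool) : Finset (ZMod 67) :=
  Finset.univ.filter (fun z => z ≠ h.1 ∧ sq (z - h.1) = h.2)

/-- the masks of these sets -/
def mk (h : ZMod 67 × Bool) : ℕ :=
  if h.2 then (((Q + Q * 2 ^ 67) >>> (67 - h.1.val)) % 2 ^ 67)
  else (((2 ^ 67 - 2 - Q + (2 ^ 67 - 2 - Q) * 2 ^ 67) >>> (67 - h.1.val)) % 2 ^ 67)

set_option maxRecDepth 100000 in
theorem masks_eq : masks = Lh.map mk := by decide +kernel

set_option maxRecDepth 100000 in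
theorem sq_mul : ∀ x y : ZMod 67, x ≠ 0 → y ≠ 0 → sq (x * y) = (sq x == sq y) := by
  decide +kernel

set_option maxRecDepth 100000 in
theorem mk_spec : ∀ (h : ZMod 67 × Bool) (z : ZMod 67), (z ≠ h.1 ∧ sq (z - h.1) = h.2) →
    inc (mk h) z.val = true := by
  decide +kernel

set_option maxRecDepth 100000 in
theorem Lh_spec : ∀ h : ZMod 67 × Bool, ((0 : ZMod 67) ≠ h.1 ∧ sq (0 - h.1) = h.2) →
    ((1 : ZMod 67) ≠ h.1 ∧ sq (1 - h.1) = h.2) → h ∈ Lh := by
  decide +kernel

set_option maxRecDepth 100000 in
theorem Lh_nodup : Lh.Nodup := by decide +kernel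

theorem mem_Hs {h : ZMod 67 × Bool} {z : ZMod 67} :
    z ∈ Hs h ↔ z ≠ h.1 ∧ sq (z - h.1) = h.2 := by simp [Hs]

theorem hyp : Hyp Hs := by
  intro I h4 h6
  by_cases hsmall : (cap Hs I).card ≤ 1
  · omega
  obtain ⟨x, hx, y, hy, hxy⟩ := Finset.one_lt_card.1 (not_le.1 hsmall)
  have hne : y - x ≠ 0 := sub_ne_zero.2 (Ne.symm hxy)
  set u := (y - x)⁻¹ with hu
  have hu0 : u ≠ 0 := inv_ne_zero hne
  let g : ZMod 67 → ZMod 67 := fun z => (z - x) * u
  let gh : ZMod 67 × Bool → ZMod 67 × Bool := fun h => (g h.1, (h.2 == sq u))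
  have ginj : Function.Injective g := by
    intro a b hab
    have : (a - x) * u = (b - x) * u := hab
    have := mul_right_cancel₀ hu0 this
    exact sub_left_injective this
  have ghinj : Function.Injective gh := by
    rintro ⟨a, e⟩ ⟨b, f⟩ hab
    have h1 : g a = g b := congrArg Prod.fst hab
    have h2 : (e == sq u) = (f == sq u) := congrArg Prod.snd hab
    have h3 : a = b := ginj h1
    have h4 : e = f := by
      revert h2
      cases e <;> cases f <;> cases sq u <;> simp
    rw [h3, h4]
  have hg : ∀ h z, z ∈ Hs h → g z ∈ Hs (gh h) := by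
    intro h z hz
    rw [mem_Hs] at hz ⊢
    refine ⟨fun h' => hz.1 (ginj h'), ?_⟩
    have h1 : g z - (gh h).1 = (z - h.1) * u := by
      show (z - x) * u - (h.1 - x) * u = (z - h.1) * u
      ring
    rw [h1, sq_mul _ _ (sub_ne_zero.2 hz.1) hu0, hz.2]
  have hcapg : ∀ z ∈ cap Hs I, g z ∈ cap Hs (I.image gh) := by
    intro z hz
    rw [mem_cap] at hz ⊢
    intro i hi
    obtain ⟨j, hj, rfl⟩ := Finset.mem_image.1 hi
    exact hg j z (hz j hj)
  have hg0 : g x = 0 := by show (x - x) * u = 0; ring
  have hg1 : g y = 1 := by show (y - x) * u = 1; exact mul_inv_cancel₀ hne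
  have hI' : ∀ h ∈ I.image gh, h ∈ Lh := by
    intro h hh
    have h0 := (mem_cap Hs).1 (hcapg x hx) h hh
    have h1 := (mem_cap Hs).1 (hcapg y hy) h hh
    rw [hg0, mem_Hs] at h0
    rw [hg1, mem_Hs] at h1
    exact Lh_spec h h0 h1
  have hcI : (I.image gh).card = I.card := Finset.card_image_of_injective _ ghinj
  let s : List (ZMod 67 × Bool) := Lh.filter (fun h => h ∈ I.image gh)
  have hs1 : s.Sublist Lh := List.filter_sublist
  have hs2 : s.toFinset = I.image gh := by
    ext h
    simp only [s, List.mem_toFinset, List.mem_filter, decide_eq_true_eq]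
    exact ⟨fun h' => h'.2, fun h' => ⟨hI' h h', h'⟩⟩
  have hs3 : s.length = I.card := by
    rw [← hcI, ← hs2, List.toFinset_card_of_nodup (Lh_nodup.sublist hs1)]
  have hs4 : (s.map mk).Sublist masks := by rw [masks_eq]; exact hs1.map mk
  have key := node_sound masks (List.range 67) 0 run (s.map mk) hs4
    (by rw [List.length_map]; omega) (by rw [List.length_map]; omega)
    (by rw [List.length_map]; omega)
  rw [List.length_map, hs3] at key
  have hfin : ((cap Hs I).image (fun z => (g z).val)) ⊆
      ((List.range 67).filter (fun z => (s.map mk).all (fun m => inc m z))).toFinset := by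
    intro n hn
    obtain ⟨z, hz, rfl⟩ := Finset.mem_image.1 hn
    rw [List.mem_toFinset, List.mem_filter, List.mem_range]
    refine ⟨ZMod.val_lt _, ?_⟩
    rw [List.all_eq_true]
    intro m hm
    obtain ⟨h, hh, rfl⟩ := List.mem_map.1 hm
    have hh' : h ∈ I.image gh := by rw [← hs2]; exact List.mem_toFinset.2 hh
    exact mk_spec h (g z) (mem_Hs.1 ((mem_cap Hs).1 (hcapg z hz) h hh'))
  have hc1 := Finset.card_le_card hfin
  rw [Finset.card_image_of_injective _
    (fun a b hab => ginj (ZMod.val_injective 67 hab))] at hc1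
  have hc2 := List.toFinset_card_le
    ((List.range 67).filter (fun z => (s.map mk).all (fun m => inc m z)))
  omega

set_option maxRecDepth 100000 in
theorem card_Hs : ∀ h : ZMod 67 × Bool, (Hs h).card ≤ 33 := by decide +kernel

set_option maxRecDepth 100000 in
theorem pair0 : ∀ (d : ZMod 67) (e f : Bool), ((0 : ZMod 67), e) ≠ (d, f) →
    ((Hs (0, e)).filter (fun z => z ≠ d ∧ sq (z - d) = f)).card ≤ 31 := by decide +kernel

theorem cap_card_one {K : Finset (ZMod 67 × Bool)} {h : ZMod 67 × Bool} (hh : h ∈ K) :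
    (cap Hs K).card ≤ 33 :=
  (Finset.card_le_card (fun _ hz => (mem_cap Hs).1 hz h hh)).trans (card_Hs h)

theorem cap_card_two {K : Finset (ZMod 67 × Bool)} (hK : 2 ≤ K.card) :
    (cap Hs K).card ≤ 31 := by
  obtain ⟨⟨p, e⟩, hp, ⟨q, f⟩, hq, hpq⟩ := Finset.one_lt_card.1 (show 1 < K.card by omega)
  have h1 : (cap Hs K).image (fun z => z - p) ⊆
      (Hs (0, e)).filter (fun z => z ≠ (q - p) ∧ sq (z - (q - p)) = f) := by
    intro w hw
    obtain ⟨z, hz, rfl⟩ := Finset.mem_image.1 hw
    have h2 := mem_Hs.1 ((mem_cap Hs).1 hz _ hp)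
    have h3 := mem_Hs.1 ((mem_cap Hs).1 hz _ hq)
    simp only at h2 h3
    rw [Finset.mem_filter, mem_Hs]
    refine ⟨⟨sub_ne_zero.2 h2.1, ?_⟩, fun h => h3.1 (sub_left_injective h), ?_⟩
    · show sq (z - p - 0) = e
      rw [sub_zero]; exact h2.2
    · rw [sub_sub_sub_cancel_right]; exact h3.2
  have h4 := Finset.card_le_card h1
  rw [Finset.card_image_of_injective _ (sub_left_injective)] at h4
  refine h4.trans (pair0 (q - p) e f ?_)
  intro h
  apply hpq
  have h5 : (0 : ZMod 67) = q - p := congrArg Prod.fst h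
  have h6 : e = f := congrArg Prod.snd h
  have h7 : q = p := sub_eq_zero.1 h5.symm
  rw [h6, h7]

/-- the counterexample -/
noncomputable def M : Matroid (ZMod 67) := Mat Hs hyp

theorem M_ind (X : Set (ZMod 67)) : M.Indep X ↔ Ind Hs (Set.toFinite X).toFinset := by
  rw [← Mat_indep Hs hyp, Set.Finite.coe_toFinset]; rfl

theorem M_E : M.E = Set.univ := rfl

theorem rk_le {A : Set (ZMod 67)} {h : ZMod 67 × Bool} (hA : A ⊆ Hs h) : M.eRk A ≤ 10 := by
  rw [Matroid.eRk_le_iff]
  intro I hIA hI
  rw [M_ind] at hI
  have h1 := hI {h} (by simp)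
  have h2 : (Set.toFinite I).toFinset ∩ cap Hs {h} = (Set.toFinite I).toFinset := by
    apply Finset.inter_eq_left.2
    intro x hx
    rw [mem_cap]
    intro i hi
    rw [Finset.mem_singleton.1 hi]
    exact hA (hIA (by simpa using hx))
  rw [h2, Finset.card_singleton] at h1
  rw [(Set.toFinite I).encard_eq_coe_toFinset_card]
  exact_mod_cast (show (Set.toFinite I).toFinset.card ≤ 10 by omega)

theorem rk_big {F : Set (ZMod 67)} (hF : M.eRk F ≤ 10) : F.ncard ≤ 33 := by
  obtain ⟨I, hI⟩ := M.exists_isBasis F (Set.subset_univ _)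
  have hIc : I.encard ≤ 10 := by rw [hI.encard_eq_eRk]; exact hF
  have hind := (M_ind I).1 hI.indep
  set X := (Set.toFinite I).toFinset with hX
  have hXc : X.card ≤ 10 := by
    rw [(Set.toFinite I).encard_eq_coe_toFinset_card] at hIc
    exact_mod_cast hIc
  set FF := (Set.toFinite F).toFinset with hFF
  have hFc : F.ncard = FF.card := Set.ncard_eq_toFinset_card F (Set.toFinite F)
  rw [hFc]
  have hdep : ∀ e ∈ FF \ X, ¬ Ind Hs (insert e X) := by
    intro e he hcon
    rw [Finset.mem_sdiff] at he
    have h1 : M.Indep (insert e I) := by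
      rw [M_ind]
      have : (Set.toFinite (insert e I)).toFinset = insert e X := by
        ext x; simp [hX]
      rw [this]; exact hcon
    have h2 : e ∈ I := hI.mem_of_insert_indep (by simpa [hFF] using he.1) h1
    exact he.2 (by simpa [hX] using h2)
  rcases span (T := FF \ X) hyp hind hdep with h | ⟨K, ⟨hK1, hK2⟩, hsub⟩
  · have := Finset.card_le_card (Finset.sdiff_eq_empty_iff_subset.1 h)
    omega
  · have h3 : FF ⊆ cap Hs K ∪ (X \ cap Hs K) := by
      intro x hx
      by_cases hxK : x ∈ cap Hs K
      · exact Finset.mem_union_left _ hxK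
      · apply Finset.mem_union_right
        rw [Finset.mem_sdiff]
        refine ⟨?_, hxK⟩
        by_contra hxX
        exact hxK (hsub (Finset.mem_sdiff.2 ⟨hx, hxX⟩))
    have h4 := Finset.card_le_card h3
    have h5 := Finset.card_union_le (cap Hs K) (X \ cap Hs K)
    have h6 := Finset.card_inter_add_card_sdiff X (cap Hs K)
    rcases Nat.lt_or_ge K.card 2 with h7 | h7
    · rcases Nat.eq_zero_or_pos K.card with h8 | h8
      · have := Finset.card_le_card (Finset.inter_subset_left : X ∩ cap Hs K ⊆ X)
        omega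
      · obtain ⟨h, hh⟩ := Finset.card_pos.1 h8
        have := cap_card_one hh
        omega
    · have := cap_card_two h7
      omega

/-! ### the statement -/

/-- `M` is simple: it has no loops and no two-element circuits, i.e. every subset of the ground
set with at most two elements is independent. -/
def IsSimple {α : Type} (M : Matroid α) : Prop :=
  ∀ x ∈ M.E, ∀ y ∈ M.E, M.Indep {x, y}

/-- `M` is covered by the dimension vector `v`: there are flats `L i` of `M`, one for every entry
`v i` of `v`, of rank at most `v i + 1`, with union the ground set. -/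
def CoveredBy {α : Type} (M : Matroid α) (v : List ℕ) : Prop :=
  ∃ L : Fin v.length → Set α, (∀ i, M.IsFlat (L i) ∧ M.eRk (L i) ≤ (v.get i : ℕ∞) + 1) ∧
    ⋃ i, L i = M.E

/-- `M` is covered by the set `V` of dimension vectors: it is covered by some `v` in `V`. -/
def CoveredByFam {α : Type} (M : Matroid α) (V : Set (List ℕ)) : Prop :=
  ∃ v ∈ V, CoveredBy M v

/-- `V` is a set of dimension vectors (non-increasing tuples of natural numbers) with at most `t`
entries each, and `k` is the maximum of all the entries. -/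
def IsFamily (t k : ℕ) (V : Set (List ℕ)) : Prop :=
  (∀ v ∈ V, v.Pairwise (· ≥ ·) ∧ v.length ≤ t) ∧ IsGreatest {a | ∃ v ∈ V, a ∈ v} k

/-- the property of `N` in the definition of `C_M(V)`: whenever `M` is a simple finite matroid
and `M | X` is covered by `V` for every `X` with at most `N` elements, `M` is covered by `V`.
`C_M(V)` is the least `N` with this property. -/
def Suffices (V : Set (List ℕ)) (N : ℕ) : Prop :=
  ∀ (α : Type) (M : Matroid α), M.Finite → IsSimple M →
    (∀ X ⊆ M.E, X.ncard ≤ N → CoveredByFam (M ↾ X) V) → CoveredByFam M V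

theorem M_simple : IsSimple M := by
  intro x _ y _
  rw [M_ind]
  apply ind_small
  rw [← Set.ncard_eq_toFinset_card]
  have := Set.ncard_insert_le x ({y} : Set (ZMod 67))
  rw [Set.ncard_singleton] at this
  omega

theorem M_card : M.E.ncard = 67 := by
  rw [M_E, Set.ncard_univ, Nat.card_eq_fintype_card, ZMod.card]

theorem M_cov (X : Set (ZMod 67)) (hX : X ≠ Set.univ) : CoveredByFam (M ↾ X) {[9, 9]} := by
  obtain ⟨p, hp⟩ := (Set.ne_univ_iff_exists_notMem X).1 hX
  refine ⟨[9, 9], rfl, fun i => (M ↾ X).closure (X ∩ Hs (p, decide (i.val = 0))), ?_, ?_⟩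
  · intro i
    refine ⟨(M ↾ X).isFlat_closure _, ?_⟩
    rw [Matroid.eRk_closure_eq, Matroid.restrict_eRk_eq _ Set.inter_subset_left]
    refine (rk_le (h := (p, decide (i.val = 0))) Set.inter_subset_right).trans ?_
    have : ([9, 9] : List ℕ).get i = 9 := by
      revert i; decide
    rw [this]
    norm_num
  · rw [Matroid.restrict_ground_eq]
    apply Set.Subset.antisymm
    · exact Set.iUnion_subset fun i => (M ↾ X).closure_subset_ground _
    · intro x hx
      have hxp : x ≠ p := fun h => hp (h ▸ hx)
      rw [Set.mem_iUnion]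
      cases hs : sq (x - p) with
      | true =>
        refine ⟨⟨0, by simp⟩, ?_⟩
        apply (M ↾ X).mem_closure_of_mem _ (by
          rw [Matroid.restrict_ground_eq]; exact Set.inter_subset_left)
        exact ⟨hx, mem_Hs.2 ⟨hxp, by simpa using hs⟩⟩
      | false =>
        refine ⟨⟨1, by simp⟩, ?_⟩
        apply (M ↾ X).mem_closure_of_mem _ (by
          rw [Matroid.restrict_ground_eq]; exact Set.inter_subset_left)
        exact ⟨hx, mem_Hs.2 ⟨hxp, by simpa using hs⟩⟩

theorem M_not : ¬ CoveredByFam M {[9, 9]} := by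
  rintro ⟨v, hv, hcov⟩
  rw [Set.mem_singleton_iff] at hv
  subst hv
  obtain ⟨L, hL, hU⟩ := hcov
  have h0 : (L ⟨0, by simp⟩).ncard ≤ 33 := by
    apply rk_big
    refine (hL ⟨0, by simp⟩).2.trans ?_
    simp only [List.get_eq_getElem, List.getElem_cons_zero]
    norm_num
  have h1 : (L ⟨1, by simp⟩).ncard ≤ 33 := by
    apply rk_big
    refine (hL ⟨1, by simp⟩).2.trans ?_
    simp only [List.get_eq_getElem, List.getElem_cons_succ, List.getElem_cons_zero]
    norm_num
  have h2 : M.E ⊆ L ⟨0, by simp⟩ ∪ L ⟨1, by simp⟩ := by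
    rw [← hU]
    apply Set.iUnion_subset
    rintro ⟨i, hi⟩
    have hi' : i < 2 := by simpa using hi
    interval_cases i
    · exact Set.subset_union_left
    · exact Set.subset_union_right
  have h3 := Set.ncard_le_ncard h2 (Set.toFinite _)
  have h4 := Set.ncard_union_le (L ⟨0, by simp⟩) (L ⟨1, by simp⟩)
  rw [M_card] at h3
  omega

/-- **Q1 is false**: for `t = 2` and the set `V` whose only member is the dimension vector
`(9, 9)`, so that `k = 9`, every `N` with the property that defines `C_M(V)` is larger than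
`binom(t + k + 1, k + 1) = binom(12, 10) = 66`. More precisely, there is a simple matroid with 67
elements all of whose proper restrictions are covered by `V` and that is not itself covered
by `V`. -/
theorem result :
    IsFamily 2 9 {[9, 9]} ∧ (2 + 9 + 1).choose (9 + 1) = 66 ∧
    (∀ N, Suffices {[9, 9]} N → (2 + 9 + 1).choose (9 + 1) < N) ∧
    ∃ M : Matroid (ZMod 67), M.E = Set.univ ∧ IsSimple M ∧
      (∀ X, X ≠ Set.univ → CoveredByFam (M ↾ X) {[9, 9]}) ∧ ¬ CoveredByFam M {[9, 9]} := by
  have hch : (2 + 9 + 1).choose (9 + 1) = 66 := by decide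
  refine ⟨⟨?_, ?_, ?_⟩, hch, ?_, M, rfl, M_simple, M_cov, M_not⟩
  · intro v hv
    rw [Set.mem_singleton_iff] at hv
    subst hv
    exact ⟨by simp, by simp⟩
  · exact ⟨[9, 9], rfl, by simp⟩
  · rintro a ⟨v, hv, ha⟩
    rw [Set.mem_singleton_iff] at hv
    subst hv
    simp at ha
    omega
  · intro N hN
    rw [hch]
    by_contra hle
    apply M_not
    refine hN (ZMod 67) M ⟨Set.toFinite _⟩ M_simple ?_
    intro X _ hXc
    apply M_cov
    rintro rfl
    rw [← M_E, M_card] at hXc
    omega

end Pool.Agent.Results.MP_6a60a4_co.RankEleven
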